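import Pool.Agent.Run7.h71.CE.Stm

/-! # Project CE: piece FINA (helper269) -/

set_option autoImplicit false

namespace Run7.h269.CE

open Set Filter Topology Pool.Agent.Run7.h71.CD Pool.Agent.Run7.h71.CE
open scoped ContDiff

theorem hom_line' (x v : ℝ × ℝ) (t : ℝ) :
    hom (x + t • v) = hom x + t • (![v.1, v.2, 0] : E3) := by
  funext i
  fin_cases i <;> simp [hom]

theorem contDiff_hom' : ContDiff ℝ ∞ hom := by
  rw [contDiff_pi]
  intro i
  fin_cases i
  · exact contDiff_fst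
  · exact contDiff_snd
  · exact contDiff_const

/-- **Piece FINA.** -/
theorem t_FINA : S_FINA := by
  intro lft' zet prj lvl out U F c₀ hL hacc L hLU hLp hlev
  obtain ⟨ζ, hζs, hζh, hζ2, hζ1, hζ3⟩ := zet U F hL
  have hfld : Fld0 U F ζ := ⟨hζs, hζh, hζ2, hζ1, hζ3⟩
  obtain ⟨lo, ls, lr, lh, lE, ld, -⟩ := lft' U F hL.isOpen hL.smooth
  obtain ⟨B, h, hBs, hB, hBE, hBζ, hhs, hh, hspan⟩ :=
    out U F ζ {c | ∀ x ∈ U, F x = c → ProjAt F x} c₀ hL hfld hacc (by
      intro X hX hT k hk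
      apply prj U F ζ hL hfld X hX (hT _ hX.2 rfl) k
      simp only [Set.mem_insert_iff, Set.mem_singleton_iff] at hk
      rcases hk with rfl | rfl
      · exact ⟨2, rfl⟩
      · exact ⟨3, rfl⟩)
  rcases L.eq_empty_or_nonempty with rfl | ⟨y₀, hy₀⟩
  · exact ⟨1, Matrix.isSymm_one, by simp, fun x hx => absurd hx (notMem_empty x)⟩
  have hY₀ := (lh y₀ (hLU hy₀)).1
  obtain ⟨sQ, dQ, qQ⟩ := hB _ hY₀
  refine ⟨B (hom y₀), sQ, dQ, ?_⟩
  have hconst : ∀ i j, ∀ x ∈ L,
      (B (hom x) i j) ^ 3 * (h (hom x)) ^ 2 = (B (hom y₀) i j) ^ 3 * (h (hom y₀)) ^ 2 := by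
    intro i j x hx
    have hBx : ContDiffOn ℝ ∞ (fun x => B (hom x) i j) U :=
      (hBs i j).comp contDiff_hom'.contDiffOn fun x hx => (lh x hx).1
    have hhx : ContDiffOn ℝ ∞ (fun x => h (hom x)) U :=
      hhs.comp contDiff_hom'.contDiffOn fun x hx => (lh x hx).1
    have hR : ContDiffOn ℝ ∞ (fun x : ℝ × ℝ => (B (hom x) i j) ^ 3 * (h (hom x)) ^ 2) U :=
      (hBx.pow 3).mul (hhx.pow 2)
    refine lvl U F _ c₀ hL.isOpen hL.smooth hR hL.regular ?_ L hLU hLp hlev x hx y₀ hy₀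
    intro x hx hFx v hv
    have hX := (lh x hx).1
    have hV := ld x hx v
    rw [hv] at hV
    obtain ⟨a, b, hab⟩ := hspan _ hX _ hV
    have hdiff : DifferentiableAt ℝ (fun x : ℝ × ℝ => (B (hom x) i j) ^ 3 * (h (hom x)) ^ 2) x :=
      (hR.contDiffAt (hL.isOpen.mem_nhds hx)).differentiableAt (by simp)
    have hdh : DifferentiableAt ℝ h (hom x) :=
      (hhs.contDiffAt (lo.mem_nhds hX)).differentiableAt (by simp)
    have hdB : DifferentiableAt ℝ (fun X => B X i j) (hom x) :=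
      ((hBs i j).contDiffAt (lo.mem_nhds hX)).differentiableAt (by simp)
    have hline : HasDerivAt (fun t : ℝ => x + t • v) v 0 := by
      have := ((hasDerivAt_id (0 : ℝ)).smul_const v).const_add x
      simpa using this
    have hlineX : HasDerivAt (fun t : ℝ => hom x + t • (![v.1, v.2, 0] : E3))
        (![v.1, v.2, 0] : E3) 0 := by
      have := ((hasDerivAt_id (0 : ℝ)).smul_const (![v.1, v.2, 0] : E3)).const_add (hom x)
      simpa using this
    have h1 : HasDerivAt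
        (fun t : ℝ => (fun x : ℝ × ℝ => (B (hom x) i j) ^ 3 * (h (hom x)) ^ 2) (x + t • v))
        (fderiv ℝ (fun x : ℝ × ℝ => (B (hom x) i j) ^ 3 * (h (hom x)) ^ 2) x v) 0 := by
      have hd2 : HasFDerivAt (fun x : ℝ × ℝ => (B (hom x) i j) ^ 3 * (h (hom x)) ^ 2)
          (fderiv ℝ (fun x : ℝ × ℝ => (B (hom x) i j) ^ 3 * (h (hom x)) ^ 2) x)
          (x + (0 : ℝ) • v) := by
        rw [zero_smul, add_zero]; exact hdiff.hasFDerivAt
      exact hd2.comp_hasDerivAt 0 hline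
    have h2 : HasDerivAt (fun t : ℝ => h (hom x + t • (![v.1, v.2, 0] : E3)))
        (fderiv ℝ h (hom x) ![v.1, v.2, 0]) 0 := by
      have hd2 : HasFDerivAt h (fderiv ℝ h (hom x)) (hom x + (0 : ℝ) • (![v.1, v.2, 0] : E3)) := by
        rw [zero_smul, add_zero]; exact hdh.hasFDerivAt
      exact hd2.comp_hasDerivAt 0 hlineX
    have h3 : HasDerivAt (fun t : ℝ => (fun X => B X i j) (hom x + t • (![v.1, v.2, 0] : E3)))
        (fderiv ℝ (fun X => B X i j) (hom x) ![v.1, v.2, 0]) 0 := by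
      have hd2 : HasFDerivAt (fun X => B X i j) (fderiv ℝ (fun X => B X i j) (hom x))
          (hom x + (0 : ℝ) • (![v.1, v.2, 0] : E3)) := by
        rw [zero_smul, add_zero]; exact hdB.hasFDerivAt
      exact hd2.comp_hasDerivAt 0 hlineX
    have h4 := (h3.pow 3).mul (h2.pow 2)
    have h5 : (fun t : ℝ =>
        (fun x : ℝ × ℝ => (B (hom x) i j) ^ 3 * (h (hom x)) ^ 2) (x + t • v)) =
        ((fun t : ℝ => (fun X => B X i j) (hom x + t • (![v.1, v.2, 0] : E3))) ^ 3) *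
        ((fun t : ℝ => h (hom x + t • (![v.1, v.2, 0] : E3))) ^ 2) := by
      funext t
      simp only [Pi.mul_apply, Pi.pow_apply, hom_line']
    rw [h5] at h1
    have h6 := h1.unique h4
    rw [h6]
    have hlx : lft F (hom x) = c₀ := by rw [(lh x hx).2, hFx]
    have v1 : fderiv ℝ (fun X => B X i j) (hom x) ![v.1, v.2, 0] = a * (-2 * B (hom x) i j) := by
      rw [hab, map_add, map_smul, map_smul, hBE _ hX i j, hBζ _ hX hlx i j]
      simp only [smul_eq_mul]
      ring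
    have v2 : fderiv ℝ h (hom x) ![v.1, v.2, 0] = 3 * a * h (hom x) := by
      rw [hab, map_add, map_smul, map_smul, (hh _ hX).2.1, (hh _ hX).2.2]
      simp only [smul_eq_mul]
      ring
    rw [v1, v2]
    simp only [Pi.pow_apply, zero_smul, add_zero]
    push_cast
    ring
  intro x hx
  have hX := (lh x (hLU hx)).1
  have hs : h (hom x) ≠ 0 := (hh _ hX).1
  have hs₀ : h (hom y₀) ≠ 0 := (hh _ hY₀).1
  set r : ℝ := (h (hom y₀)) ^ 2 / (h (hom x)) ^ 2 with hr
  have hr0 : 0 < r := by positivity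
  set lam : ℝ := r ^ ((3 : ℕ)⁻¹ : ℝ) with hlam
  have hlam0 : 0 < lam := Real.rpow_pos_of_pos hr0 _
  have hlam3 : lam ^ 3 = r := Real.rpow_inv_natCast_pow hr0.le (by norm_num)
  have hBQ : ∀ i j, B (hom x) i j = lam * B (hom y₀) i j := by
    intro i j
    have h1 := hconst i j x hx
    have h2 : (B (hom x) i j) ^ 3 = (lam * B (hom y₀) i j) ^ 3 := by
      rw [mul_pow, hlam3, hr, div_mul_eq_mul_div, eq_div_iff (pow_ne_zero 2 hs), h1]
      ring
    exact (Odd.strictMono_pow (R := ℝ) ⟨1, rfl⟩).injective h2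
  have hq := (hB _ hX).2.2
  have e : qf (B (hom x)) (hom x) = lam * qf (B (hom y₀)) (hom x) := by
    simp only [qf, Finset.mul_sum]
    refine Finset.sum_congr rfl fun i _ => Finset.sum_congr rfl fun j _ => ?_
    rw [hBQ i j]
    ring
  rw [e] at hq
  exact (mul_eq_zero.1 hq).resolve_left hlam0.ne'

end Run7.h269.CE
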