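import Pool.Agent.Run7.h71.CE.Stm
import Pool.Agent.Run7.h913.CD.SETUP

/-! # Project CE: piece PRJ (helper269, the pointwise part of helper913's SETUP) -/

set_option autoImplicit false

namespace Run7.h269.CE

open Set Filter Topology Pool.Agent.Run7.h71.CD Pool.Agent.Run7.h71.CE Pool.Agent.Run7.h913.CD
open scoped ContDiff

/-- **Piece PRJ.** -/
theorem t_PRJ : S_PRJ := by
  intro lf evn U F ζ hL hζ X hX hproj
  obtain ⟨hc, hs, -, -, -, -, -⟩ := lf U F hL.isOpen hL.smooth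
  obtain ⟨hX2, hxU⟩ := hX
  have hX : X ∈ cone U := ⟨hX2, hxU⟩
  obtain ⟨o1, z1, c1, e1⟩ := line U F hc hs X hX (ζ X)
  set x : ℝ × ℝ := (X 0 / X 2, X 1 / X 2) with hx
  set e : ℝ := ζ X 2 / X 2 with he
  set v : ℝ × ℝ := (ζ X 0 / X 2 - X 0 / X 2 * (ζ X 2 / X 2),
    ζ X 1 / X 2 - X 1 / X 2 * (ζ X 2 / X 2)) with hv
  set g : ℝ → ℝ := fun s => lft F (X + s • ζ X) with hg
  set g₁ : ℝ → ℝ := fun s => F (x + s • v) with hg₁
  have hpl : g =ᶠ[𝓝 0] fun t => g₁ (1 * t / (1 + e * t)) := line_plane F X (ζ X) hX2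
  have hcd : ContDiff ℝ ∞ (fun t : ℝ => x + t • v) := by fun_prop
  have ho : IsOpen {s : ℝ | x + s • v ∈ U} := hL.isOpen.preimage hcd.continuous
  have hz : (0 : ℝ) ∈ {s : ℝ | x + s • v ∈ U} := by simpa using hxU
  have hsm : ContDiffOn ℝ ∞ g₁ {s : ℝ | x + s • v ∈ U} :=
    hL.smooth.comp hcd.contDiffOn (fun t ht => ht)
  have hd : deriv g₁ 0 = fderiv ℝ F x v := by
    have h1 : HasDerivAt (fun t : ℝ => x + t • v) v 0 := by
      simpa using ((hasDerivAt_id (0 : ℝ)).smul_const v).const_add x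
    have h2 : HasFDerivAt F (fderiv ℝ F x) (x + (0 : ℝ) • v) := by
      rw [zero_smul, add_zero]
      exact ((hL.smooth.contDiffAt (hL.isOpen.mem_nhds hxU)).differentiableAt
        (by simp)).hasFDerivAt
    exact (h2.comp_hasDerivAt (0 : ℝ) h1).deriv
  intro k hk
  have hg0 : deriv g 0 = 0 := by
    have := hζ.one X hX
    rwa [iteratedDeriv_one] at this
  have hFv : fderiv ℝ F x v = 0 := by
    have := (mob g₁ _ ho hz hsm 1 e g hpl).1
    rw [hg0, mul_one, hd] at this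
    exact this.symm
  obtain ⟨c, hcev⟩ := hproj v hFv
  have hcg : ContDiffAt ℝ ∞ g 0 := c1.contDiffAt (o1.mem_nhds z1)
  refine evn g (c + 2 * e) hcg (hζ.one X hX) (hζ.two X hX) (hζ.three X hX) ?_ k hk
  -- the invariance
  have hne1 : ∀ᶠ s in 𝓝 (0 : ℝ), 1 + e * s ≠ 0 := by
    have : ContinuousAt (fun s : ℝ => 1 + e * s) 0 := by fun_prop
    exact this.eventually_ne (by simp)
  have hne2 : ∀ᶠ s in 𝓝 (0 : ℝ), 1 + (c + e) * s ≠ 0 := by
    have : ContinuousAt (fun s : ℝ => 1 + (c + e) * s) 0 := by fun_prop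
    exact this.eventually_ne (by simp)
  have hne3 : ∀ᶠ s in 𝓝 (0 : ℝ), 1 + (c + 2 * e) * s ≠ 0 := by
    have : ContinuousAt (fun s : ℝ => 1 + (c + 2 * e) * s) 0 := by fun_prop
    exact this.eventually_ne (by simp)
  have ht1 : Tendsto (fun s : ℝ => 1 * s / (1 + e * s)) (𝓝 0) (𝓝 0) := by
    have : ContinuousAt (fun s : ℝ => 1 * s / (1 + e * s)) 0 := by
      apply ContinuousAt.div
      · fun_prop
      · fun_prop
      · simp
    simpa [ContinuousAt] using this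
  have ht2 : Tendsto (fun s : ℝ => -s / (1 + (c + 2 * e) * s)) (𝓝 0) (𝓝 0) := by
    have : ContinuousAt (fun s : ℝ => -s / (1 + (c + 2 * e) * s)) 0 := by
      apply ContinuousAt.div
      · fun_prop
      · fun_prop
      · simp
    simpa [ContinuousAt] using this
  filter_upwards [hpl, ht1.eventually hcev, ht2.eventually hpl, hne1, hne2, hne3] with
    s k1 k2 k3 n1 n2 n3
  rw [k1, k3]
  show F (x + (1 * s / (1 + e * s)) • v) = g₁ _
  rw [k2]
  simp only [hg₁]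
  congr 1
  rw [sub_eq_add_neg, ← neg_smul]
  congr 2
  exact mobius_alg c e s n1 n2 n3

end Run7.h269.CE
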